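import Pool.Agent.Y453.UF.Stm

/-! Project UF: the classes `e_0 e_i`. -/

set_option autoImplicit false

namespace Pool.Agent.Y235.UF

open Pool.Agent.Results.MP_9b3cbe_gt.E8Arises Pool.Agent.Y453.UF

/-- the products, in the exterior algebra -/
noncomputable def xx (n : ℕ) (a : Fin n) : ExteriorAlgebra ℤ (Fin (n + 1) → ℤ) :=
  ExteriorAlgebra.ι ℤ (Pi.single 0 1) * ExteriorAlgebra.ι ℤ (Pi.single a.succ 1)

theorem xx_mem (n : ℕ) (a : Fin n) : xx n a ∈ ⋀[ℤ]^2 (Fin (n + 1) → ℤ) := by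
  show xx n a ∈ LinearMap.range (ExteriorAlgebra.ι ℤ) ^ 2
  rw [pow_two]
  exact Submodule.mul_mem_mul (LinearMap.mem_range_self _ _) (LinearMap.mem_range_self _ _)

theorem xx_mul (n : ℕ) (a b : Fin n) : xx n a * xx n b = 0 := by
  unfold xx
  have h1 : ExteriorAlgebra.ι ℤ (Pi.single a.succ 1 : Fin (n + 1) → ℤ) *
      ExteriorAlgebra.ι ℤ (Pi.single 0 1 : Fin (n + 1) → ℤ) =
      -(ExteriorAlgebra.ι ℤ (Pi.single 0 1) * ExteriorAlgebra.ι ℤ (Pi.single a.succ 1)) :=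
    eq_neg_of_add_eq_zero_left (ExteriorAlgebra.ι_add_mul_swap _ _)
  have h2 : ExteriorAlgebra.ι ℤ (Pi.single 0 1 : Fin (n + 1) → ℤ) *
      ExteriorAlgebra.ι ℤ (Pi.single 0 1) = 0 := ExteriorAlgebra.ι_sq_zero _
  calc ExteriorAlgebra.ι ℤ (Pi.single 0 1 : Fin (n + 1) → ℤ) *
        ExteriorAlgebra.ι ℤ (Pi.single a.succ 1) *
        (ExteriorAlgebra.ι ℤ (Pi.single 0 1) * ExteriorAlgebra.ι ℤ (Pi.single b.succ 1))
      = ExteriorAlgebra.ι ℤ (Pi.single 0 1 : Fin (n + 1) → ℤ) *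
        (ExteriorAlgebra.ι ℤ (Pi.single a.succ 1) * ExteriorAlgebra.ι ℤ (Pi.single 0 1)) *
        ExteriorAlgebra.ι ℤ (Pi.single b.succ 1) := by simp only [mul_assoc]
    _ = -((ExteriorAlgebra.ι ℤ (Pi.single 0 1 : Fin (n + 1) → ℤ) *
        ExteriorAlgebra.ι ℤ (Pi.single 0 1)) * (ExteriorAlgebra.ι ℤ (Pi.single a.succ 1) *
        ExteriorAlgebra.ι ℤ (Pi.single b.succ 1))) := by
          rw [h1]
          simp only [mul_assoc, mul_neg, neg_mul]
    _ = 0 := by rw [h2, zero_mul, neg_zero]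

/-- contraction with the coordinate `0` -/
noncomputable def con (n : ℕ) : ExteriorAlgebra ℤ (Fin (n + 1) → ℤ) →+
    ExteriorAlgebra ℤ (Fin (n + 1) → ℤ) :=
  (CliffordAlgebra.contractLeft (Q := (0 : QuadraticForm ℤ (Fin (n + 1) → ℤ)))
    (LinearMap.proj 0 : Module.Dual ℤ (Fin (n + 1) → ℤ))).toAddMonoidHom

theorem con_xx (n : ℕ) (a : Fin n) :
    con n (xx n a) = ExteriorAlgebra.ι ℤ (Pi.single a.succ 1) := by
  show (CliffordAlgebra.contractLeft (Q := (0 : QuadraticForm ℤ (Fin (n + 1) → ℤ)))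
    (LinearMap.proj 0 : Module.Dual ℤ (Fin (n + 1) → ℤ)))
    (CliffordAlgebra.ι 0 (Pi.single 0 1) * CliffordAlgebra.ι 0 (Pi.single a.succ 1)) = _
  rw [CliffordAlgebra.contractLeft_ι_mul, CliffordAlgebra.contractLeft_ι]
  have h0 : (LinearMap.proj 0 : Module.Dual ℤ (Fin (n + 1) → ℤ)) (Pi.single 0 1) = 1 := by
    simp
  have h1 : (LinearMap.proj 0 : Module.Dual ℤ (Fin (n + 1) → ℤ)) (Pi.single a.succ 1) = 0 := by
    simp [Pi.single_apply]
  rw [h0, h1, map_zero, mul_zero, sub_zero, one_smul]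

theorem ind : S_IND := by
  intro n
  refine ⟨fun a => ⟨xx n a, xx_mem n a⟩, ?_, fun a b => xx_mul n a b⟩
  rw [Fintype.linearIndependent_iff]
  intro g hg i
  let f : Coh (n + 1) 2 →+ ExteriorAlgebra ℤ (Fin (n + 1) → ℤ) :=
    (con n).comp (Coh (n + 1) 2).subtype
  have hf : ∀ a : Fin n, f ⟨xx n a, xx_mem n a⟩ = ExteriorAlgebra.ι ℤ (Pi.single a.succ 1) :=
    fun a => con_xx n a
  have h1 := congrArg f hg
  rw [map_sum, map_zero] at h1
  have h2 : ∀ a ∈ (Finset.univ : Finset (Fin n)),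
      f (g a • (⟨xx n a, xx_mem n a⟩ : Coh (n + 1) 2)) =
        ExteriorAlgebra.ι ℤ (g a • (Pi.single a.succ 1 : Fin (n + 1) → ℤ)) := by
    intro a _
    have h3 := map_zsmul f (g a) (⟨xx n a, xx_mem n a⟩ : Coh (n + 1) 2)
    rw [hf] at h3
    rw [map_zsmul (ExteriorAlgebra.ι ℤ)]
    exact h3
  rw [Finset.sum_congr rfl h2, ← map_sum] at h1
  have h4 : (∑ a, g a • (Pi.single a.succ 1 : Fin (n + 1) → ℤ)) = 0 := by
    apply (ExteriorAlgebra.ι_inj (R := ℤ) _ _).mp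
    rw [h1, map_zero]
  have h5 := congrFun h4 i.succ
  rw [Finset.sum_apply] at h5
  rw [Finset.sum_eq_single i] at h5
  · simpa using h5
  · intro b _ hb
    rw [Pi.smul_apply, Pi.single_apply, if_neg (fun h => hb (Fin.succ_injective _ h).symm)]
    simp
  · intro h
    exact absurd (Finset.mem_univ i) h

end Pool.Agent.Y235.UF
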